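import Mathlib
import Pool.Agent.H.MP_59b15d_al.h93e.Mv

set_option autoImplicit false

/-!
# The dual representation

`du ρ` is the dual of `ρ`, `np ρ l` the product of the operators `ρ x - 1`, `x ∈ l`.
-/

namespace Pool.MP_59b15d_al.H11D

open Module Pool.MP_59b15d_al.H95E Pool.MP_59b15d_al.H93E

variable {F V Γ : Type*} [Field F] [AddCommGroup V] [Module F V] [Group Γ]

/-- The dual representation. -/
def du (ρ : Γ →* Module.End F V) : Γ →* Module.End F (Module.Dual F V) where
  toFun g := (ρ g⁻¹).dualMap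
  map_one' := by
    apply LinearMap.ext
    intro f
    apply LinearMap.ext
    intro v
    rw [LinearMap.dualMap_apply, inv_one, rho_one]
    rfl
  map_mul' x y := by
    apply LinearMap.ext
    intro f
    apply LinearMap.ext
    intro v
    rw [LinearMap.dualMap_apply, mul_inv_rev, rho_mul]
    rfl

theorem du_apply (ρ : Γ →* Module.End F V) (g : Γ) (f : Module.Dual F V) (v : V) :
    du ρ g f v = f (ρ g⁻¹ v) := rfl

theorem du_nn (ρ : Γ →* Module.End F V) (g : Γ) (f : Module.Dual F V) (v : V) :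
    nn (du ρ) g f v = f (nn ρ g⁻¹ v) := by
  rw [nn_apply, nn_apply, map_sub, LinearMap.sub_apply, du_apply]

/-- Functionals separate the vectors. -/
theorem eq_zero_of_dual {v : V} (h : ∀ f : Module.Dual F V, f v = 0) : v = 0 :=
  (Module.forall_dual_apply_eq_zero_iff F v).1 h

theorem eq_of_dual {v w : V} (h : ∀ f : Module.Dual F V, f v = f w) : v = w := by
  rw [← sub_eq_zero]
  apply eq_zero_of_dual (F := F)
  intro f
  rw [map_sub, h f, sub_self]

/-- The dual has the same kernel. -/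
theorem du_eq_one_iff {ρ : Γ →* Module.End F V} {g : Γ} : du ρ g = 1 ↔ ρ g = 1 := by
  constructor
  · intro h
    have h1 : ∀ v, ρ g⁻¹ v = v := by
      intro v
      apply eq_of_dual (F := F)
      intro f
      rw [← du_apply, h]
      rfl
    apply LinearMap.ext
    intro v
    conv_lhs => rw [← h1 v]
    rw [rho_inv']
    rfl
  · intro h
    have h1 : ρ g⁻¹ = 1 := by
      have h2 : ρ g⁻¹ * ρ g = 1 := by rw [← map_mul, inv_mul_cancel, map_one]
      rwa [h, mul_one] at h2
    apply LinearMap.ext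
    intro f
    apply LinearMap.ext
    intro v
    rw [du_apply, h1]
    rfl

/-- The functionals fixed by `H` are those vanishing on all `ρ x v - v`. -/
theorem mem_Fx_du {ρ : Γ →* Module.End F V} {H : Subgroup Γ} {f : Module.Dual F V} :
    f ∈ Fx (du ρ) H ↔ ∀ x ∈ H, ∀ v, f (ρ x v - v) = 0 := by
  rw [mem_Fx]
  constructor
  · intro h x hx v
    rw [map_sub, sub_eq_zero]
    have h1 := h x⁻¹ (inv_mem hx)
    conv_rhs => rw [← h1]
    rw [du_apply, inv_inv]
  · intro h x hx
    apply LinearMap.ext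
    intro v
    have h1 := h x⁻¹ (inv_mem hx) v
    rw [map_sub, sub_eq_zero] at h1
    rw [du_apply, h1]

/-- The fixed functionals are the annihilator of the span of the `ρ x v - v`. -/
theorem Fx_du (ρ : Γ →* Module.End F V) (H : Subgroup Γ) :
    Fx (du ρ) H =
      (Submodule.span F {w | ∃ x ∈ H, ∃ v, w = ρ x v - v}).dualAnnihilator := by
  ext f
  rw [mem_Fx_du, Submodule.mem_dualAnnihilator]
  constructor
  · intro h w hw
    induction hw using Submodule.span_induction with
    | mem w hw =>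
      obtain ⟨x, hx, v, rfl⟩ := hw
      exact h x hx v
    | zero => exact map_zero f
    | add x y _ _ hx hy => rw [map_add, hx, hy, add_zero]
    | smul c x _ hx => rw [map_smul, hx, smul_zero]
  · intro h x hx v
    exact h _ (Submodule.subset_span ⟨x, hx, v, rfl⟩)

/-- The subspace of the vectors killed by an invariant space of functionals is invariant. -/
theorem inv_coann {ρ : Γ →* Module.End F V} {W : Submodule F (Module.Dual F V)}
    (hW : ∀ g, ∀ f ∈ W, du ρ g f ∈ W) : ∀ g, ∀ v ∈ W.dualCoannihilator,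
      ρ g v ∈ W.dualCoannihilator := by
  intro g v hv
  rw [Submodule.mem_dualCoannihilator] at hv ⊢
  intro f hf
  have h1 := hv _ (hW g⁻¹ f hf)
  rwa [du_apply, inv_inv] at h1

/-- The annihilator of an invariant subspace is invariant. -/
theorem inv_ann {ρ : Γ →* Module.End F V} {U : Submodule F V}
    (hU : ∀ g, ∀ v ∈ U, ρ g v ∈ U) : ∀ g, ∀ f ∈ U.dualAnnihilator,
      du ρ g f ∈ U.dualAnnihilator := by
  intro g f hf
  rw [Submodule.mem_dualAnnihilator] at hf ⊢
  intro v hv
  rw [du_apply]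
  exact hf _ (hU g⁻¹ v hv)

/-- **The dual of an irreducible representation is irreducible.** -/
theorem du_irr [FiniteDimensional F V] {ρ : Γ →* Module.End F V}
    (hirr : ∀ U : Submodule F V, (∀ g, ∀ v ∈ U, ρ g v ∈ U) → U = ⊥ ∨ U = ⊤) :
    ∀ W : Submodule F (Module.Dual F V), (∀ g, ∀ f ∈ W, du ρ g f ∈ W) → W = ⊥ ∨ W = ⊤ := by
  intro W hW
  have h0 : W.dualCoannihilator.dualAnnihilator = W :=
    Subspace.dualCoannihilator_dualAnnihilator_eq
  rcases hirr _ (inv_coann hW) with h | h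
  · right
    rw [← h0, h, Submodule.dualAnnihilator_bot]
  · left
    rw [← h0, h, Submodule.dualAnnihilator_top]

/-- If `V` is irreducible without invariants, then the dual has no invariants. -/
theorem du_no_inv {ρ : Γ →* Module.End F V}
    (hirr : ∀ U : Submodule F V, (∀ g, ∀ v ∈ U, ρ g v ∈ U) → U = ⊥ ∨ U = ⊤)
    (h0 : ∀ v, (∀ g, ρ g v = v) → v = 0) (f : Module.Dual F V) (hf : ∀ g, du ρ g f = f) :
    f = 0 := by
  have h2 : ∀ g v, f (ρ g v) = f v := by
    intro g v
    have h3 : du ρ g⁻¹ f v = f v := by rw [hf]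
    rwa [du_apply, inv_inv] at h3
  have h1 : ∀ g, ∀ v ∈ LinearMap.ker f, ρ g v ∈ LinearMap.ker f := by
    intro g v hv
    rw [LinearMap.mem_ker] at hv ⊢
    rw [h2, hv]
  rcases hirr _ h1 with h | h
  · have h4 : ∀ v : V, v = 0 := by
      intro v
      apply h0
      intro g
      have h5 : ρ g v - v ∈ LinearMap.ker f := by
        rw [LinearMap.mem_ker, map_sub, h2, sub_self]
      rw [h, Submodule.mem_bot] at h5
      exact sub_eq_zero.1 h5
    apply LinearMap.ext
    intro v
    rw [h4 v, map_zero, map_zero]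
  · apply LinearMap.ext
    intro v
    have h3 : v ∈ LinearMap.ker f := by rw [h]; exact Submodule.mem_top
    exact h3

/-! ### Products of the operators `ρ x - 1` -/

/-- The product of the operators `ρ x - 1`, `x ∈ l`. -/
def np (ρ : Γ →* Module.End F V) (l : List Γ) : Module.End F V := (l.map (nn ρ)).prod

theorem np_nil (ρ : Γ →* Module.End F V) (v : V) : np ρ [] v = v := rfl

theorem np_cons (ρ : Γ →* Module.End F V) (x : Γ) (l : List Γ) (v : V) :
    np ρ (x :: l) v = nn ρ x (np ρ l v) := by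
  unfold np
  rw [List.map_cons, List.prod_cons]
  rfl

theorem np_map {ι : Type*} (ρ : Γ →* Module.End F V) (A : ι → Γ) (l : List ι) :
    np ρ (l.map A) = (l.map fun i => nn ρ (A i)).prod := by
  unfold np
  rw [List.map_map]
  rfl

theorem np_append (ρ : Γ →* Module.End F V) (l l' : List Γ) (v : V) :
    np ρ (l ++ l') v = np ρ l (np ρ l' v) := by
  unfold np
  rw [List.map_append, List.prod_append]
  rfl

/-- What commutes with the list commutes with the product. -/
theorem rho_np (ρ : Γ →* Module.End F V) {g : Γ} {l : List Γ} (h : ∀ x ∈ l, Commute g x) (v : V) :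
    ρ g (np ρ l v) = np ρ l (ρ g v) := by
  induction l with
  | nil => rfl
  | cons x l ih =>
    rw [np_cons, np_cons, ← ih fun y hy => h y (List.mem_cons_of_mem x hy)]
    have h1 : x * g = g * x := (h x List.mem_cons_self).symm.eq
    exact (nn_conj ρ h1 _).symm

theorem nn_np (ρ : Γ →* Module.End F V) {g : Γ} {l : List Γ} (h : ∀ x ∈ l, Commute g x) (v : V) :
    nn ρ g (np ρ l v) = np ρ l (nn ρ g v) := by
  rw [nn_apply, nn_apply, map_sub, rho_np ρ h]

/-- The order does not matter. -/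
theorem np_perm (ρ : Γ →* Module.End F V) {l l' : List Γ} (hp : l.Perm l')
    (hc : ∀ x ∈ l, ∀ y ∈ l, Commute x y) (v : V) : np ρ l v = np ρ l' v := by
  induction hp generalizing v with
  | nil => rfl
  | cons x _ ih =>
    rw [np_cons, np_cons, ih fun y hy z hz =>
      hc y (List.mem_cons_of_mem x hy) z (List.mem_cons_of_mem x hz)]
  | swap x y l =>
    rw [np_cons, np_cons, np_cons, np_cons]
    exact nn_comm ρ (hc y List.mem_cons_self x (List.mem_cons_of_mem y List.mem_cons_self)) _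
  | trans h1 _ ih1 ih2 =>
    rw [ih1 hc, ih2 fun y hy z hz => hc y (h1.mem_iff.2 hy) z (h1.mem_iff.2 hz)]

/-- Transport by conjugation. -/
theorem np_conj (ρ : Γ →* Module.End F V) (g : Γ) (l : List Γ) (v : V) :
    np ρ (l.map fun x => g * x * g⁻¹) (ρ g v) = ρ g (np ρ l v) := by
  induction l with
  | nil => rfl
  | cons x l ih =>
    rw [List.map_cons, np_cons, np_cons, ih]
    exact nn_conj ρ (by group) _

theorem nn_inv (ρ : Γ →* Module.End F V) (x : Γ) (v : V) : nn ρ x⁻¹ v = -ρ x⁻¹ (nn ρ x v) := by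
  rw [nn_apply, nn_apply, map_sub, rho_inv]
  abel

/-- The product for the inverses. -/
theorem np_inv (ρ : Γ →* Module.End F V) {l : List Γ} (hc : ∀ x ∈ l, ∀ y ∈ l, Commute x y)
    (v : V) : np ρ (l.map fun x => x⁻¹) v = (-1 : F) ^ l.length • ρ l.prod⁻¹ (np ρ l v) := by
  induction l with
  | nil =>
    rw [List.map_nil, List.prod_nil, inv_one, rho_one, List.length_nil, pow_zero, one_smul,
      np_nil]
  | cons x l ih =>
    have hx : Commute x l.prod :=
      Commute.list_prod_right _ _ fun y hy => hc x List.mem_cons_self y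
        (List.mem_cons_of_mem x hy)
    have h1 : nn ρ x (ρ l.prod⁻¹ (np ρ l v)) = ρ l.prod⁻¹ (nn ρ x (np ρ l v)) :=
      nn_conj ρ hx.inv_right.eq _
    rw [List.map_cons, np_cons, np_cons, ih fun y hy z hz =>
      hc y (List.mem_cons_of_mem x hy) z (List.mem_cons_of_mem x hz), map_smul, nn_inv, h1,
      List.prod_cons, hx.eq, mul_inv_rev, rho_mul, List.length_cons, pow_succ, smul_neg,
      mul_neg_one, neg_smul]

theorem np_inv_eq_zero (ρ : Γ →* Module.End F V) {l : List Γ}
    (hc : ∀ x ∈ l, ∀ y ∈ l, Commute x y) (v : V) :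
    np ρ (l.map fun x => x⁻¹) v = 0 ↔ np ρ l v = 0 := by
  rw [np_inv ρ hc]
  constructor
  · intro h
    have h1 : ρ l.prod⁻¹ (np ρ l v) = 0 := by
      rcases smul_eq_zero.1 h with h2 | h2
      · exact absurd h2 (pow_ne_zero _ (neg_ne_zero.2 one_ne_zero))
      · exact h2
    apply rho_inj ρ l.prod⁻¹
    rw [h1, map_zero]
  · intro h
    rw [h, map_zero, smul_zero]

/-- The product in the dual. -/
theorem du_np (ρ : Γ →* Module.End F V) {l : List Γ} (hc : ∀ x ∈ l, ∀ y ∈ l, Commute x y)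
    (f : Module.Dual F V) (v : V) : np (du ρ) l f v = f (np ρ (l.map fun x => x⁻¹) v) := by
  induction l generalizing v with
  | nil => rfl
  | cons x l ih =>
    rw [np_cons, du_nn, ih fun y hy z hz =>
      hc y (List.mem_cons_of_mem x hy) z (List.mem_cons_of_mem x hz), List.map_cons, np_cons]
    congr 1
    refine (nn_np ρ ?_ v).symm
    intro y hy
    obtain ⟨z, hz, rfl⟩ := List.mem_map.1 hy
    exact (hc x List.mem_cons_self z (List.mem_cons_of_mem x hz)).inv_inv

/-- **The product vanishes on the dual if and only if it vanishes.** -/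
theorem du_np_eq_zero_iff (ρ : Γ →* Module.End F V) {l : List Γ}
    (hc : ∀ x ∈ l, ∀ y ∈ l, Commute x y) : np (du ρ) l = 0 ↔ np ρ l = 0 := by
  constructor
  · intro h
    apply LinearMap.ext
    intro v
    rw [LinearMap.zero_apply, ← np_inv_eq_zero ρ hc]
    apply eq_zero_of_dual (F := F)
    intro f
    rw [← du_np ρ hc, h]
    rfl
  · intro h
    apply LinearMap.ext
    intro f
    apply LinearMap.ext
    intro v
    have h1 : np ρ (l.map fun x => x⁻¹) v = 0 := by
      rw [np_inv_eq_zero ρ hc, h]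
      rfl
    rw [du_np ρ hc, h1, map_zero]
    rfl

/-! ### The difference operator -/

/-- `ρ e⁻¹ - ρ e'⁻¹` in terms of `ρ e - ρ e'`. -/
theorem D_inv (ρ : Γ →* Module.End F V) {e e' : Γ} (hee : e * e' = e' * e) (v : V) :
    (ρ e⁻¹ - ρ e'⁻¹) (ρ (e * e') v) = -(ρ e - ρ e') v := by
  have h1 : ρ e⁻¹ (ρ (e * e') v) = ρ e' v := by rw [← rho_mul]; congr 2; group
  have h2 : ρ e'⁻¹ (ρ (e * e') v) = ρ e v := by rw [hee, ← rho_mul]; congr 2; group
  rw [LinearMap.sub_apply, LinearMap.sub_apply, h1, h2]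
  abel

theorem du_D (ρ : Γ →* Module.End F V) (e e' : Γ) (f : Module.Dual F V) (v : V) :
    (du ρ e - du ρ e') f v = f ((ρ e⁻¹ - ρ e'⁻¹) v) := by
  rw [LinearMap.sub_apply, LinearMap.sub_apply, LinearMap.sub_apply, map_sub, du_apply, du_apply]

theorem D_np (ρ : Γ →* Module.End F V) {e e' : Γ} {l : List Γ} (he : ∀ x ∈ l, Commute e x)
    (he' : ∀ x ∈ l, Commute e' x) (v : V) :
    (ρ e - ρ e') (np ρ l v) = np ρ l ((ρ e - ρ e') v) := by
  rw [LinearMap.sub_apply, LinearMap.sub_apply, map_sub, rho_np ρ he, rho_np ρ he']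

/-- **`D n_l` vanishes on the dual if and only if it vanishes.** -/
theorem du_D_np_iff (ρ : Γ →* Module.End F V) {e e' : Γ} {l : List Γ}
    (hc : ∀ x ∈ l, ∀ y ∈ l, Commute x y) (hee : e * e' = e' * e)
    (he : ∀ x ∈ l, Commute e x) (he' : ∀ x ∈ l, Commute e' x) :
    (∀ f, (du ρ e - du ρ e') (np (du ρ) l f) = 0) ↔ ∀ v, (ρ e - ρ e') (np ρ l v) = 0 := by
  have h1 : (∀ f, (du ρ e - du ρ e') (np (du ρ) l f) = 0) ↔
      ∀ v, np ρ (l.map fun x => x⁻¹) ((ρ e⁻¹ - ρ e'⁻¹) v) = 0 := by
    constructor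
    · intro h v
      apply eq_zero_of_dual (F := F)
      intro f
      rw [← du_np ρ hc, ← du_D, h]
      rfl
    · intro h f
      apply LinearMap.ext
      intro v
      rw [du_D, du_np ρ hc, h, map_zero]
      rfl
  rw [h1]
  constructor
  · intro h v
    have h2 := h (ρ (e * e') v)
    rw [np_inv_eq_zero ρ hc, D_inv ρ hee, map_neg, neg_eq_zero] at h2
    rw [D_np ρ he he', h2]
  · intro h v
    have h2 := h (ρ (e * e')⁻¹ v)
    rw [D_np ρ he he'] at h2
    rw [np_inv_eq_zero ρ hc, ← rho_inv' ρ (e * e') v, D_inv ρ hee, map_neg, h2, neg_zero]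

/-- **`D n_b n_l` vanishes on the dual if and only if `n_b D n_l` vanishes.** -/
theorem du_D_nb_np_iff (ρ : Γ →* Module.End F V) {e e' b : Γ} {l : List Γ}
    (hc : ∀ x ∈ l, ∀ y ∈ l, Commute x y) (hee : e * e' = e' * e)
    (he : ∀ x ∈ l, Commute e x) (he' : ∀ x ∈ l, Commute e' x) (hb : ∀ x ∈ l, Commute b x) :
    (∀ f, (du ρ e - du ρ e') (nn (du ρ) b (np (du ρ) l f)) = 0) ↔
      ∀ v, nn ρ b ((ρ e - ρ e') (np ρ l v)) = 0 := by
  have h1 : (∀ f, (du ρ e - du ρ e') (nn (du ρ) b (np (du ρ) l f)) = 0) ↔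
      ∀ v, np ρ (l.map fun x => x⁻¹) (nn ρ b⁻¹ ((ρ e⁻¹ - ρ e'⁻¹) v)) = 0 := by
    constructor
    · intro h v
      apply eq_zero_of_dual (F := F)
      intro f
      rw [← du_np ρ hc, ← du_nn, ← du_D, h]
      rfl
    · intro h f
      apply LinearMap.ext
      intro v
      rw [du_D, du_nn, du_np ρ hc, h, map_zero]
      rfl
  have h3 : ∀ w, np ρ (l.map fun x => x⁻¹) (nn ρ b⁻¹ w) = 0 ↔ np ρ l (nn ρ b w) = 0 := by
    intro w
    rw [np_inv_eq_zero ρ hc, nn_inv, map_neg, neg_eq_zero,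
      ← rho_np ρ fun x hx => (hb x hx).inv_left]
    constructor
    · intro h
      apply rho_inj ρ b⁻¹
      rw [h, map_zero]
    · intro h
      rw [h, map_zero]
  rw [h1]
  constructor
  · intro h v
    have h2 := h (ρ (e * e') v)
    rw [h3, D_inv ρ hee, map_neg, map_neg, neg_eq_zero] at h2
    rw [D_np ρ he he', nn_np ρ hb, h2]
  · intro h v
    have h2 := h (ρ (e * e')⁻¹ v)
    rw [D_np ρ he he', nn_np ρ hb] at h2
    rw [h3, ← rho_inv' ρ (e * e') v, D_inv ρ hee, map_neg, map_neg, h2, neg_zero]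

/-- The form of the hypothesis of `BPair.sec2e`. -/
theorem sec2e_hyp (ρ : Γ →* Module.End F V) {e e' b : Γ} {l : List Γ}
    (hc : ∀ x ∈ l, ∀ y ∈ l, Commute x y) (hee : e * e' = e' * e)
    (he : ∀ x ∈ l, Commute e x) (he' : ∀ x ∈ l, Commute e' x) (hb : ∀ x ∈ l, Commute b x)
    (h : ∀ f ∈ LinearMap.range (np (du ρ) l), (du ρ e - du ρ e') (du ρ b f - f) = 0) :
    ∀ v ∈ LinearMap.range (np ρ l), ρ b ((ρ e - ρ e') v) - (ρ e - ρ e') v = 0 := by
  rintro _ ⟨v, rfl⟩
  exact (du_D_nb_np_iff ρ hc hee he he' hb).1 (fun f => h _ ⟨f, rfl⟩) v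

end Pool.MP_59b15d_al.H11D
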