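import Mathlib
import Pool.Agent.H.MP_59b15d_al.h47e.Fb
import Pool.Agent.H.MP_59b15d_al.h95e.St1
import Pool.Agent.H.MP_59b15d_al.h11d.Dual

set_option autoImplicit false

/-!
# The space `n_J V` for a maximal set `J`

If the products of `k + 1` operators `n_(A i)` vanish, then `n_J V` is exact at `J` in the sense of
`Uk`, for every set `J` of `k` handles.
-/

namespace Pool.MP_59b15d_al.H11D

open Module Pool.MP_59b15d_al.H95E Pool.MP_59b15d_al.H93E Pool.MP_59b15d_al.H47E

section lantern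

variable {Γ : Type*} [Group Γ] {g : ℕ} {A B C S : ℕ → Γ}

/-- The arc joining the handles `x < y`. -/
def ar (C S : ℕ → Γ) (x y : ℕ) : Γ := fa C S x (y - x - 1)

/-- The lantern relation for three handles. -/
def Lan3 (g : ℕ) (A B C S : ℕ → Γ) : Prop :=
  ∀ x y z, x < y → y < z → z < g → ∃ E : Γ,
    ar C S x y * ((A y * B y) ^ 3 * ar C S y z * ((A y * B y) ^ 3)⁻¹) * ar C S x z =
      A x * A y * A z * E ∧ E * B x * E = B x * E * B x ∧ E * B y * E = B y * E * B y ∧
      E * B z * E = B z * E * B z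

theorem ar_A (L : Lk g A B C S) {x y : ℕ} (h : x < y) (hy : y < g) (j : ℕ) :
    Commute (ar C S x y) (A j) := fa_A L _ (by omega) j

theorem ar_l (L : Lk g A B C S) {x y : ℕ} (h : x < y) (hy : y < g) :
    ar C S x y * B x * ar C S x y = B x * ar C S x y * B x :=
  (fa_brl L _ (by omega)).symm

theorem ar_r (L : Lk g A B C S) {x y : ℕ} (h : x < y) (hy : y < g) :
    ar C S x y * B y * ar C S x y = B y * ar C S x y * B y := by
  have h1 := fa_brr L (l := x) (y - x - 1) (by omega)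
  rw [show x + (y - x - 1) + 1 = y by omega] at h1
  exact h1.symm

/-- **Closure under the lantern relation.** The subgroup `X` contains every `t` which commutes with
all `A i` and satisfies the braid relation with some `B l`, `l ∉ K`, and it is normalised by the
half turns. If there are two handles outside `K` then `X` contains all `A i` and all arcs. -/
theorem lan_closure (L : Lk g A B C S) (hL : Lan3 g A B C S) {K : Finset ℕ} (X : Subgroup Γ)
    (h1 : ∀ t, (∀ i, Commute t (A i)) → ∀ l, l < g → l ∉ K → t * B l * t = B l * t * B l → t ∈ X)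
    (h2 : ∀ i, i < g → ∀ x, x ∈ X ↔ (A i * B i) ^ 3 * x * ((A i * B i) ^ 3)⁻¹ ∈ X)
    {u v : ℕ} (huv : u < v) (hv : v < g) (hu : u ∉ K) (hvK : v ∉ K) :
    (∀ i, i < g → A i ∈ X) ∧ ∀ x y, x < y → y < g → ar C S x y ∈ X := by
  -- free handles
  have fA : ∀ i, i < g → i ∉ K → A i ∈ X := fun i hi hK =>
    h1 _ (fun j => L.AA i j) i hi hK (L.brA i)
  have fl : ∀ x y, x < y → y < g → x ∉ K → ar C S x y ∈ X := fun x y h hy hx =>
    h1 _ (ar_A L h hy) x (by omega) hx (ar_l L h hy)
  have fr : ∀ x y, x < y → y < g → y ∉ K → ar C S x y ∈ X := fun x y h hy hx =>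
    h1 _ (ar_A L h hy) y hy hx (ar_r L h hy)
  -- the fourth element
  have key : ∀ x y z, x < y → y < z → z < g → (x ∉ K ∨ y ∉ K ∨ z ∉ K) → ∃ E ∈ X,
      ar C S x y * ((A y * B y) ^ 3 * ar C S y z * ((A y * B y) ^ 3)⁻¹) * ar C S x z =
        A x * A y * A z * E := by
    intro x y z hxy hyz hz hK
    obtain ⟨E, hE, e1, e2, e3⟩ := hL x y z hxy hyz hz
    refine ⟨E, ?_, hE⟩
    have hc : ∀ i, Commute E (A i) := by
      intro i
      have e4 : E = (A x * A y * A z)⁻¹ * (ar C S x y * ((A y * B y) ^ 3 * ar C S y z *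
          ((A y * B y) ^ 3)⁻¹) * ar C S x z) := by
        rw [hE, inv_mul_cancel_left]
      rw [e4]
      have a1 : Commute (A x * A y * A z) (A i) :=
        ((L.AA x i).mul_left (L.AA y i)).mul_left (L.AA z i)
      have a2 := ar_A L hxy (by omega) i
      have a3 := ar_A L hyz hz i
      have a4 := ar_A L (hxy.trans hyz) hz i
      have a5 := io_A L y i
      exact a1.inv_left.mul_left ((a2.mul_left ((a5.mul_left a3).mul_left a5.inv_left)).mul_left
        a4)
    rcases hK with hK | hK | hK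
    · exact h1 E hc x (by omega) hK e1
    · exact h1 E hc y (by omega) hK e2
    · exact h1 E hc z hz hK e3
  have allA : ∀ i, i < g → A i ∈ X := by
    intro i hi
    by_cases hiK : i ∈ K
    · have hiu : i ≠ u := fun e => hu (e ▸ hiK)
      have hiv : i ≠ v := fun e => hvK (e ▸ hiK)
      have hAu := fA u (by omega) hu
      have hAv := fA v hv hvK
      rcases lt_or_gt_of_ne hiu with h3 | h3
      · -- `i < u < v`
        obtain ⟨E, hE, e⟩ := key i u v h3 huv hv (Or.inr (Or.inl hu))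
        have e1 : A i = (ar C S i u * ((A u * B u) ^ 3 * ar C S u v * ((A u * B u) ^ 3)⁻¹) *
            ar C S i v) * (A u * A v * E)⁻¹ := by rw [e]; group
        rw [e1]
        exact mul_mem (mul_mem (mul_mem (fr i u h3 (by omega) hu)
          ((h2 u (by omega) _).1 (fr u v huv hv hvK))) (fr i v (by omega) hv hvK))
          (inv_mem (mul_mem (mul_mem hAu hAv) hE))
      · rcases lt_or_gt_of_ne hiv with h4 | h4
        · -- `u < i < v`
          obtain ⟨E, hE, e⟩ := key u i v h3 h4 hv (Or.inl hu)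
          have e1 : A i = (A u)⁻¹ * (ar C S u i * ((A i * B i) ^ 3 * ar C S i v *
              ((A i * B i) ^ 3)⁻¹) * ar C S u v) * (A v * E)⁻¹ := by rw [e]; group
          rw [e1]
          exact mul_mem (mul_mem (inv_mem hAu) (mul_mem (mul_mem (fl u i h3 (by omega) hu)
            ((h2 i hi _).1 (fr i v h4 hv hvK))) (fl u v huv hv hu)))
            (inv_mem (mul_mem hAv hE))
        · -- `u < v < i`
          obtain ⟨E, hE, e⟩ := key u v i huv h4 hi (Or.inl hu)
          have e1 : A i = (A u * A v)⁻¹ * (ar C S u v * ((A v * B v) ^ 3 * ar C S v i *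
              ((A v * B v) ^ 3)⁻¹) * ar C S u i) * E⁻¹ := by rw [e]; group
          rw [e1]
          exact mul_mem (mul_mem (inv_mem (mul_mem hAu hAv)) (mul_mem (mul_mem
            (fl u v huv hv hu) ((h2 v hv _).1 (fl v i h4 hi hvK))) (fl u i h3 hi hu)))
            (inv_mem hE)
    · exact fA i hi hiK
  refine ⟨allA, ?_⟩
  intro x y hxy hy
  by_cases hxK : x ∈ K
  · by_cases hyK : y ∈ K
    · have hxu : u ≠ x := fun e => hu (e ▸ hxK)
      have hyu : u ≠ y := fun e => hu (e ▸ hyK)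
      have hug : u < g := by omega
      rcases lt_or_gt_of_ne hxu with h3 | h3
      · -- `u < x < y`
        obtain ⟨E, hE, e⟩ := key u x y h3 hxy hy (Or.inl hu)
        rw [h2 x (by omega)]
        have e1 : (A x * B x) ^ 3 * ar C S x y * ((A x * B x) ^ 3)⁻¹ =
            (ar C S u x)⁻¹ * (A u * A x * A y * E) * (ar C S u y)⁻¹ := by rw [← e]; group
        rw [e1]
        exact mul_mem (mul_mem (inv_mem (fl u x h3 (by omega) hu)) (mul_mem (mul_mem (mul_mem
          (allA u hug) (allA x (by omega))) (allA y hy)) hE)) (inv_mem (fl u y (by omega) hy hu))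
      · rcases lt_or_gt_of_ne hyu with h4 | h4
        · -- `x < u < y`
          obtain ⟨E, hE, e⟩ := key x u y h3 h4 hy (Or.inr (Or.inl hu))
          have e1 : ar C S x y = (ar C S x u * ((A u * B u) ^ 3 * ar C S u y *
              ((A u * B u) ^ 3)⁻¹))⁻¹ * (A x * A u * A y * E) := by rw [← e]; group
          rw [e1]
          exact mul_mem (inv_mem (mul_mem (fr x u h3 hug hu) ((h2 u hug _).1
            (fl u y h4 hy hu)))) (mul_mem (mul_mem (mul_mem (allA x (by omega)) (allA u hug))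
            (allA y hy)) hE)
        · -- `x < y < u`
          obtain ⟨E, hE, e⟩ := key x y u hxy h4 hug (Or.inr (Or.inr hu))
          have e1 : ar C S x y = (A x * A y * A u * E) * ((A y * B y) ^ 3 * ar C S y u *
              ((A y * B y) ^ 3)⁻¹ * ar C S x u)⁻¹ := by rw [← e]; group
          rw [e1]
          exact mul_mem (mul_mem (mul_mem (mul_mem (allA x (by omega)) (allA y hy))
            (allA u hug)) hE) (inv_mem (mul_mem ((h2 y hy _).1 (fr y u h4 hug hu))
            (fr x u h3 hug hu)))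
    · exact fr x y hxy hy hyK
  · exact fl x y hxy hy hxK

end lantern

variable {F V Γ : Type*} [Field F] [AddCommGroup V] [Module F V] [Group Γ]
  {ρ : Γ →* Module.End F V} {g : ℕ} {A B C S : ℕ → Γ}

/-- The space `n_J V`. -/
def UJ (ρ : Γ →* Module.End F V) (A : ℕ → Γ) (J : List ℕ) : Submodule F V :=
  LinearMap.range (np ρ (J.map A))

theorem mem_UJ {J : List ℕ} {v : V} : v ∈ UJ ρ A J ↔ ∃ w, np ρ (J.map A) w = v := Iff.rfl

/-- What commutes with the `A j` stabilises `n_J V`. -/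
theorem sb_UJ {J : List ℕ} {y : Γ} (h : ∀ j ∈ J, Commute y (A j)) : y ∈ sb ρ (UJ ρ A J) := by
  have h' : ∀ x ∈ J.map A, Commute y x := by
    intro x hx
    obtain ⟨j, hj, rfl⟩ := List.mem_map.1 hx
    exact h j hj
  apply mem_sb_of_le
  · rintro _ ⟨w, rfl⟩
    exact ⟨ρ y w, (rho_np ρ h' w).symm⟩
  · rintro _ ⟨w, rfl⟩
    exact ⟨ρ y⁻¹ w, (rho_np ρ (fun x hx => (h' x hx).inv_left) w).symm⟩

theorem UJ_perm (L : Lk g A B C S) {J J' : List ℕ} (hp : J.Perm J') : UJ ρ A J = UJ ρ A J' := by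
  have h1 : np ρ (J.map A) = np ρ (J'.map A) := by
    apply LinearMap.ext
    intro v
    refine np_perm ρ (hp.map A) ?_ v
    intro x hx y hy
    obtain ⟨i, _, rfl⟩ := List.mem_map.1 hx
    obtain ⟨j, _, rfl⟩ := List.mem_map.1 hy
    exact L.AA i j
  rw [UJ, h1]
  rfl

/-- **The space `n_J V` is exact at `J`.** -/
theorem uk_UJ (L : Lk g A B C S) (hL : Lan3 g A B C S) (hout : ∀ i, g ≤ i → A i = 1)
    {J : List ℕ} (hJ : J.Nodup) (hJg : J.length + 2 ≤ g)
    (h0 : ∀ l, l < g → l ∉ J → np ρ (A l :: J.map A) = 0) :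
    Uk ρ A B C S g J.toFinset (UJ ρ A J) := by
  -- an element which commutes with the `A j` and is braided with a free `B l`
  have hfix : ∀ t, (∀ i, Commute t (A i)) → ∀ l, l < g → l ∉ J.toFinset →
      t * B l * t = B l * t * B l → t ∈ fx ρ (UJ ρ A J) := by
    intro t ht l hl hlJ hb
    rw [List.mem_toFinset] at hlJ
    have c : ∀ j ∈ J, Commute (B l) (A j) := fun j hj =>
      (L.AB j l fun e => hlJ (e ▸ hj)).symm
    have e1 : A l ∈ fx ρ (UJ ρ A J) := by
      rintro _ ⟨w, rfl⟩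
      have h1 := LinearMap.congr_fun (h0 l hl hlJ) w
      rw [np_cons, nn_apply, LinearMap.zero_apply, sub_eq_zero] at h1
      exact h1
    have e2 : B l ∈ fx ρ (UJ ρ A J) := by
      have h1 : A l * B l ∈ sb ρ (UJ ρ A J) :=
        sb_UJ fun j hj => (L.AA l j).mul_left (c j hj)
      rw [← mem_sb.1 h1]
      refine fx_mv_of_eq e1 ?_
      rw [← mul_assoc, ← L.brA l]
    have h1 : B l * t ∈ sb ρ (UJ ρ A J) := sb_UJ fun j hj => (c j hj).mul_left (ht j)
    rw [← mem_sb.1 h1]
    refine fx_mv_of_eq e2 ?_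
    rw [← mul_assoc, hb]
  have hio : ∀ i, (A i * B i) ^ 3 ∈ sb ρ (UJ ρ A J) := fun i => sb_UJ fun j _ => io_A L i j
  have hconj : ∀ i, i < g → ∀ x, x ∈ fx ρ (UJ ρ A J) ↔
      (A i * B i) ^ 3 * x * ((A i * B i) ^ 3)⁻¹ ∈ fx ρ (UJ ρ A J) := by
    intro i _ x
    have h1 : x ∈ fx ρ (mv ρ ((A i * B i) ^ 3)⁻¹ (UJ ρ A J)) ↔
        (A i * B i) ^ 3 * x * ((A i * B i) ^ 3)⁻¹ ∈ fx ρ (UJ ρ A J) := by
      rw [mem_fx_mv, inv_inv]
    rwa [mem_sb.1 (inv_mem (hio i))] at h1
  -- two free handles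
  obtain ⟨u, v, huv, hv, hu, hvK⟩ : ∃ u v, u < v ∧ v < g ∧ u ∉ J.toFinset ∧ v ∉ J.toFinset := by
    have h1 : 1 < (Finset.range g \ J.toFinset).card := by
      have h2 := Finset.le_card_sdiff J.toFinset (Finset.range g)
      rw [Finset.card_range, List.toFinset_card_of_nodup hJ] at h2
      omega
    obtain ⟨x, hx, y, hy, hxy⟩ := Finset.one_lt_card.1 h1
    rw [Finset.mem_sdiff, Finset.mem_range] at hx hy
    rcases lt_or_gt_of_ne hxy with h3 | h3
    · exact ⟨x, y, h3, hy.1, hx.2, hy.2⟩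
    · exact ⟨y, x, h3, hx.1, hy.2, hx.2⟩
  obtain ⟨hA, hF⟩ := lan_closure L hL (fx ρ (UJ ρ A J)) hfix hconj huv hv hu hvK
  refine ⟨⟨?_, ?_, fun i _ => hio i⟩, ?_, ?_⟩
  · intro i
    by_cases hi : i < g
    · exact hA i hi
    · rw [hout i (by omega)]
      exact one_mem _
  · intro l n hn
    have h1 := hF l (l + n + 1) (by omega) hn
    rwa [ar, show l + n + 1 - l - 1 = n by omega] at h1
  · intro i hi hiJ
    rw [List.mem_toFinset] at hiJ
    -- as in `hfix`
    have c : ∀ j ∈ J, Commute (B i) (A j) := fun j hj =>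
      (L.AB j i fun e => hiJ (e ▸ hj)).symm
    have h1 : A i * B i ∈ sb ρ (UJ ρ A J) :=
      sb_UJ fun j hj => (L.AA i j).mul_left (c j hj)
    rw [← mem_sb.1 h1]
    refine fx_mv_of_eq (hA i hi) ?_
    rw [← mul_assoc, ← L.brA i]
  · intro j hj hjg
    rw [List.mem_toFinset] at hj
    have hp : J.Perm (j :: J.erase j) := List.perm_cons_erase hj
    rw [UJ_perm L hp]
    have hne : ∀ i ∈ J.erase j, i ≠ j := fun i hi e => by
      rw [e] at hi
      exact (hJ.not_mem_erase) hi
    have c1 : ∀ x ∈ (J.erase j).map A, Commute (A j * B j) x := by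
      intro x hx
      obtain ⟨i, hi, rfl⟩ := List.mem_map.1 hx
      exact (L.AA j i).mul_left (L.AB i j (hne i hi)).symm
    rintro _ ⟨w, rfl⟩
    -- `n_B n_A n_J' w = A B n_A (A B)⁻¹ n_A n_J' w = A B n_A n_J' ((A B)⁻¹ n_A w)`
    have e0 : B j * (A j * B j) = A j * B j * A j := by rw [← mul_assoc, ← L.brA j]
    refine ⟨np ρ ((j :: J.erase j).map A) (ρ (A j * B j)⁻¹ (nn ρ (A j) w)), ⟨_, rfl⟩, ?_⟩
    rw [List.map_cons, np_cons, np_cons, ← nn_conj ρ e0, rho_np ρ c1, rho_inv']
    have c2 : ∀ x ∈ (J.erase j).map A, Commute (A j) x := by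
      intro x hx
      obtain ⟨i, hi, rfl⟩ := List.mem_map.1 hx
      exact L.AA j i
    rw [nn_np ρ c2]

end Pool.MP_59b15d_al.H11D
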