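import Mathlib
import Pool.Agent.H.MP_59b15d_al.h11d.Indep1

set_option autoImplicit false

/-!
# Independence

If `k` is maximal with `n_J ≠ 0` for `|J| = k` and nothing is exact for `k - 1`, then the translates
of the spaces `n_J V` by the products of elements `A j * B j` are independent, and
`2 ^ k * choose g k ≤ dim V`.
-/

namespace Pool.MP_59b15d_al.H11D

open Module Pool.MP_59b15d_al.H95E Pool.MP_59b15d_al.H93E Pool.MP_59b15d_al.H47E

/-- Vectors separated by operators which act on them by scalars are independent. -/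
theorem linInd_ops {F V ι κ : Type*} [Field F] [AddCommGroup V] [Module F V] (u : ι → V)
    (hu : ∀ i, u i ≠ 0) (T : κ → Module.End F V) (c : ι → κ → F)
    (hT : ∀ i t, T t (u i) = c i t • u i) (hsep : ∀ i j, i ≠ j → ∃ t, c i t ≠ c j t) :
    LinearIndependent F u := by
  classical
  rw [linearIndependent_iff']
  intro s
  induction s using Finset.induction_on with
  | empty => intro f _ i hi; exact absurd hi (Finset.notMem_empty i)
  | insert a s ha ih =>
    intro f hf
    have h1 : ∀ b ∈ s, f b = 0 := by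
      intro b hb
      obtain ⟨t, ht⟩ := hsep b a (fun e => ha (e ▸ hb))
      have h2 : ∑ i ∈ s, (f i * (c i t - c a t)) • u i = 0 := by
        have h3 : T t (∑ i ∈ insert a s, f i • u i) - c a t • ∑ i ∈ insert a s, f i • u i = 0 := by
          rw [hf, map_zero, smul_zero, sub_zero]
        rw [map_sum, Finset.smul_sum, ← Finset.sum_sub_distrib, Finset.sum_insert ha] at h3
        have h4 : T t (f a • u a) - c a t • f a • u a = 0 := by
          rw [map_smul, hT, smul_smul, smul_smul, mul_comm, sub_self]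
        rw [h4, zero_add] at h3
        rw [← h3]
        refine Finset.sum_congr rfl fun i _ => ?_
        rw [map_smul, hT, mul_sub, sub_smul, smul_smul, smul_smul, mul_comm (c a t)]
      have h5 := ih (fun i => f i * (c i t - c a t)) h2 b hb
      exact (mul_eq_zero.1 h5).resolve_right (sub_ne_zero.2 ht)
    intro i hi
    rcases Finset.mem_insert.1 hi with rfl | hi
    · rw [Finset.sum_insert ha, Finset.sum_eq_zero (fun b hb => by rw [h1 b hb, zero_smul]),
        add_zero] at hf
      exact (smul_eq_zero.1 hf).resolve_right (hu i)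
    · exact h1 i hi

variable {F V Γ : Type*} [Field F] [AddCommGroup V] [Module F V] [Group Γ]
  {ρ : Γ →* Module.End F V} {g : ℕ} {A B C S : ℕ → Γ}

/-- The data at a handle. -/
theorem uk_pr (L : Lk g A B C S) {K : Finset ℕ} {U : Submodule F V} (h : Uk ρ A B C S g K U)
    {j : ℕ} (hj : j ∈ K) (hjg : j < g) : Pr ρ (A j) (B j) U :=
  ⟨L.brA j, h.un.fA j, h.ii j hj hjg, h.un.sI j hjg⟩

/-- The first operation at an arbitrary handle. -/
theorem uk_cap (L : Lk g A B C S) {K : Finset ℕ} {U : Submodule F V}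
    (h : Uk ρ A B C S g K U) {j : ℕ} (hj : j ∈ K) (hjg : j < g) :
    Uk ρ A B C S g (K.erase j) (U ⊓ mv ρ (A j * B j) U) := by
  have P := uk_pr L h hj hjg
  have hle : ∀ {x : Γ}, x ∈ fx ρ U → x ∈ fx ρ (U ⊓ mv ρ (A j * B j) U) :=
    fun hx => fx_anti ρ inf_le_left hx
  have cA : ∀ i, i ≠ j → Commute (A i) (A j * B j) :=
    fun i hi => (L.AA i j).mul_right (L.AB i j hi)
  have cB : ∀ i, i ≠ j → Commute (B i) (A j * B j) :=
    fun i hi => (L.AB j i (Ne.symm hi)).symm.mul_right (L.BB i j)
  refine ⟨⟨fun i => hle (h.un.fA i), fun l n hn => hle (h.un.fF l n hn), ?_⟩, ?_, ?_⟩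
  · intro i hi
    have hc : Commute ((A i * B i) ^ 3) (A j * B j) := (io_A L i j).mul_right (io_B L i j)
    rw [mem_sb, mv_inf, mem_sb.1 (h.un.sI i hi), mem_sb.1 (sb_mv_of_comm (h.un.sI i hi) hc)]
  · intro i hi hiK
    by_cases h1 : i = j
    · rw [h1]
      exact fx_anti ρ inf_le_right P.fB
    · refine hle (h.fB i hi fun h2 => hiK ?_)
      exact Finset.mem_erase.2 ⟨h1, h2⟩
  · intro i hiK hi w hw
    rw [Finset.mem_erase] at hiK
    have hc : Commute (A i * B i) (A j * B j) := (cA i hiK.1).mul_left (cB i hiK.1)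
    rw [mv_inf]
    refine ⟨h.ii i hiK.2 hi w hw.1, ?_⟩
    have h3 := nn_mv ρ (cB i hiK.1).eq (h.ii i hiK.2 hi) w hw.2
    rwa [← mv_mul, ← hc.eq, mv_mul] at h3

/-- The product of the elements `A j * B j`. -/
def wl (A B : ℕ → Γ) (l : List ℕ) : Γ := (l.map fun j => A j * B j).prod

theorem wl_comm {l : List ℕ} {x : Γ} (h : ∀ j ∈ l, Commute x (A j * B j)) :
    Commute x (wl A B l) := by
  apply Commute.list_prod_right
  intro y hy
  obtain ⟨j, hj, rfl⟩ := List.mem_map.1 hy
  exact h j hj

theorem wl_erase (L : Lk g A B C S) {l : List ℕ} (hl : l.Nodup) {j : ℕ} (hj : j ∈ l) :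
    wl A B l = A j * B j * wl A B (l.erase j) := by
  have h1 : (l.map fun j => A j * B j).Pairwise Commute := by
    rw [List.pairwise_map]
    refine hl.imp fun {x y} hxy => ?_
    exact ((L.AA x y).mul_right (L.AB x y hxy)).mul_left
      (((L.AB y x (Ne.symm hxy)).symm).mul_right (L.BB x y))
  have h2 := List.Perm.prod_eq' ((List.perm_cons_erase hj).map fun j => A j * B j) h1
  rw [List.map_cons, List.prod_cons] at h2
  exact h2

/-- The operators `- n_A n_B` and `- n_B n_A`. -/
def PQ (ρ : Γ →* Module.End F V) (A B : ℕ → Γ) : ℕ × Bool → Module.End F V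
  | (l, true) => -(nn ρ (A l) * nn ρ (B l))
  | (l, false) => -(nn ρ (B l) * nn ρ (A l))

theorem PQ_true (l : ℕ) (v : V) : PQ ρ A B (l, true) v = -nn ρ (A l) (nn ρ (B l) v) := rfl

theorem PQ_false (l : ℕ) (v : V) : PQ ρ A B (l, false) v = -nn ρ (B l) (nn ρ (A l) v) := rfl

/-- The eigenvalues. -/
def ev (F : Type*) [Field F] (K c : Finset ℕ) : ℕ × Bool → F
  | (l, true) => if l ∈ K ∧ l ∉ c then 1 else 0
  | (l, false) => if l ∈ c then 1 else 0

/-- The action of the operators. -/
theorem PQ_act (L : Lk g A B C S) {K : Finset ℕ} {U : Submodule F V}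
    (h : Uk ρ A B C S g K U) (hz : ∀ j ∈ K, U ⊓ mv ρ (A j * B j) U = ⊥) {c : Finset ℕ}
    (hc : c ⊆ K) {u : V} (hu : u ∈ U) (t : ℕ × Bool) (ht : t.1 < g) :
    PQ ρ A B t (ρ (wl A B c.toList) u) = ev F K c t • ρ (wl A B c.toList) u := by
  obtain ⟨l, e⟩ := t
  change l < g at ht
  by_cases hl : l ∈ c
  · -- `w = A B w'`
    have hlK : l ∈ K := hc hl
    have P := uk_pr L h hlK ht
    have hl' : l ∈ c.toList := Finset.mem_toList.2 hl
    have hnd := Finset.nodup_toList c
    have hne : ∀ i ∈ c.toList.erase l, i ≠ l := fun i hi e => by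
      rw [e] at hi
      exact hnd.not_mem_erase hi
    have cA : Commute (A l) (wl A B (c.toList.erase l)) := wl_comm fun i hi =>
      (L.AA l i).mul_right (L.AB l i (Ne.symm (hne i hi)))
    have cB : Commute (B l) (wl A B (c.toList.erase l)) := wl_comm fun i hi =>
      (L.AB i l (hne i hi)).symm.mul_right (L.BB l i)
    have e1 : ρ (wl A B c.toList) u =
        ρ (wl A B (c.toList.erase l)) (ρ (A l * B l) u) := by
      rw [wl_erase L hnd hl', (cA.mul_left cB).eq, rho_mul]
    have hx : ρ (A l * B l) u ∈ mv ρ (A l * B l) U := mv_mem _ hu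
    rw [e1]
    cases e with
    | true =>
      rw [PQ_true, nn_conj ρ cB.eq, nn_eq_zero P.fB hx, map_zero, map_zero, neg_zero, ev,
        if_neg (fun h1 => h1.2 hl), zero_smul]
    | false =>
      rw [PQ_false, nn_conj ρ cA.eq, nn_conj ρ cB.eq, P.nBnA (hz l hlK) _ hx, map_neg, neg_neg,
        ev, if_pos hl, one_smul]
  · have hne : ∀ i ∈ c.toList, i ≠ l := fun i hi e => by
      rw [e, Finset.mem_toList] at hi
      exact hl hi
    have cA : Commute (A l) (wl A B c.toList) := wl_comm fun i hi =>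
      (L.AA l i).mul_right (L.AB l i (Ne.symm (hne i hi)))
    have cB : Commute (B l) (wl A B c.toList) := wl_comm fun i hi =>
      (L.AB i l (hne i hi)).symm.mul_right (L.BB l i)
    cases e with
    | true =>
      rw [PQ_true, nn_conj ρ cB.eq, nn_conj ρ cA.eq, ev]
      by_cases hlK : l ∈ K
      · have P := uk_pr L h hlK ht
        rw [P.nAnB (hz l hlK) hu, map_neg, neg_neg, if_pos ⟨hlK, hl⟩, one_smul]
      · rw [nn_eq_zero (h.fB l ht hlK) hu, map_zero, map_zero, neg_zero,
          if_neg (fun h1 => hlK h1.1), zero_smul]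
    | false =>
      rw [PQ_false, nn_conj ρ cA.eq, nn_eq_zero (h.un.fA l) hu, map_zero, map_zero, neg_zero, ev,
        if_neg hl, zero_smul]

/-- The eigenvalues separate. -/
theorem ev_sep (F : Type*) [Field F] {K c K' c' : Finset ℕ} (hc : c ⊆ K) (hc' : c' ⊆ K')
    (hK : ∀ j ∈ K, j < g) (hK' : ∀ j ∈ K', j < g) (hne : ¬ (K = K' ∧ c = c')) :
    ∃ t : ℕ × Bool, t.1 < g ∧ ev F K c t ≠ ev F K' c' t := by
  by_contra hcon
  push Not at hcon
  apply hne
  have h1 : ∀ l, l ∈ c ↔ l ∈ c' := by
    intro l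
    constructor
    · intro h
      have h2 := hcon (l, false) (hK l (hc h))
      rw [ev, ev, if_pos h] at h2
      by_contra h3
      rw [if_neg h3] at h2
      exact one_ne_zero h2
    · intro h
      have h2 := hcon (l, false) (hK' l (hc' h))
      rw [ev, ev, if_pos h] at h2
      by_contra h3
      rw [if_neg h3] at h2
      exact zero_ne_one h2
  refine ⟨?_, Finset.ext h1⟩
  ext l
  constructor
  · intro h
    by_cases hl : l ∈ c
    · exact hc' ((h1 l).1 hl)
    · have h2 := hcon (l, true) (hK l h)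
      rw [ev, ev, if_pos ⟨h, hl⟩] at h2
      by_contra h3
      rw [if_neg (fun h4 => h3 h4.1)] at h2
      exact one_ne_zero h2
  · intro h
    by_cases hl : l ∈ c'
    · exact hc ((h1 l).2 hl)
    · have h2 := hcon (l, true) (hK' l h)
      rw [ev, ev, if_pos (⟨h, hl⟩ : l ∈ K' ∧ l ∉ c')] at h2
      by_contra h3
      rw [if_neg (fun h4 : l ∈ K ∧ l ∉ c => h3 h4.1)] at h2
      exact zero_ne_one h2

/-! ### All sets of handles are equivalent -/

/-- A property of sets of handles which is stable under the exchanges of neighbours. -/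
theorem move_iff {m : ℕ} (P : Finset ℕ → Prop)
    (hP : ∀ (K : Finset ℕ) (i : ℕ), i + 1 < g →
      (P K ↔ P (K.map (Equiv.swap i (i + 1)).toEmbedding))) :
    ∀ (n : ℕ) (K : Finset ℕ), (∀ j ∈ K, j < g) → K.card = m → (∑ j ∈ K, (g - j)) ≤ n →
      (P K ↔ P (Finset.Ico (g - m) g)) := by
  intro n
  induction n with
  | zero =>
    intro K hK hc hs
    have h1 : K = ∅ := by
      rw [Finset.eq_empty_iff_forall_notMem]
      intro j hj
      have h2 := Finset.single_le_sum (f := fun j => g - j) (fun _ _ => Nat.zero_le _) hj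
      have h3 := hK j hj
      omega
    subst h1
    have h2 : m = 0 := by rw [← hc]; rfl
    subst h2
    rw [show Finset.Ico (g - 0) g = (∅ : Finset ℕ) by simp]
  | succ n ih =>
    intro K hK hc hs
    by_cases h0 : ∀ i ∈ K, i + 1 < g → i + 1 ∈ K
    · have h1 := eq_last hK h0
      rw [hc] at h1
      rw [← h1]
    · push Not at h0
      obtain ⟨i, hiK, hi, hi'⟩ := h0
      have hsum : ∑ j ∈ K.map (Equiv.swap i (i + 1)).toEmbedding, (g - j) + 1 =
          ∑ j ∈ K, (g - j) := by
        rw [Finset.sum_map, ← Finset.add_sum_erase K _ hiK, ← Finset.add_sum_erase K _ hiK]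
        have h1 : ∑ x ∈ K.erase i, (g - (Equiv.swap i (i + 1)).toEmbedding x) =
            ∑ x ∈ K.erase i, (g - x) := by
          apply Finset.sum_congr rfl
          intro x hx
          rw [Finset.mem_erase] at hx
          have h2 : x ≠ i + 1 := fun h3 => hi' (h3 ▸ hx.2)
          rw [Equiv.coe_toEmbedding, Equiv.swap_apply_of_ne_of_ne hx.1 h2]
        rw [h1, Equiv.coe_toEmbedding, Equiv.swap_apply_left]
        omega
      rw [hP K i hi]
      refine ih _ ?_ (by rw [Finset.card_map, hc]) (by omega)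
      intro j hj
      rw [Finset.mem_map] at hj
      obtain ⟨x, hx, rfl⟩ := hj
      exact swap_lt hi (hK x hx)

theorem toList_map_perm (K : Finset ℕ) (e : ℕ ≃ ℕ) :
    ((K.map e.toEmbedding).toList).Perm (K.toList.map e) := by
  rw [List.perm_ext_iff_of_nodup (Finset.nodup_toList _)
    ((Finset.nodup_toList K).map e.injective)]
  intro a
  rw [Finset.mem_toList, Finset.mem_map, List.mem_map]
  simp only [Finset.mem_toList, Equiv.coe_toEmbedding]

theorem map_A_comm (L : Lk g A B C S) (l : List ℕ) :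
    ∀ x ∈ l.map A, ∀ y ∈ l.map A, Commute x y := by
  intro x hx y hy
  obtain ⟨i, _, rfl⟩ := List.mem_map.1 hx
  obtain ⟨j, _, rfl⟩ := List.mem_map.1 hy
  exact L.AA i j

theorem np_perm_A (L : Lk g A B C S) {l l' : List ℕ} (h : l.Perm l') :
    np ρ (l.map A) = np ρ (l'.map A) := by
  apply LinearMap.ext
  intro v
  exact np_perm ρ (h.map A) (map_A_comm L l) v

theorem np_swap (L : Lk g A B C S) (K : Finset ℕ) {i : ℕ} (hi : i + 1 < g) :
    np ρ (K.toList.map A) = 0 ↔
      np ρ ((K.map (Equiv.swap i (i + 1)).toEmbedding).toList.map A) = 0 := by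
  rw [np_perm_A L (toList_map_perm K (Equiv.swap i (i + 1)))]
  have h1 : (K.toList.map (Equiv.swap i (i + 1))).map A =
      (K.toList.map A).map fun x => S i * x * (S i)⁻¹ := by
    rw [List.map_map, List.map_map]
    refine List.map_congr_left fun j _ => ?_
    rw [Function.comp_apply, Function.comp_apply, (S_A L hi j).eq, mul_inv_cancel_right]
  rw [h1]
  constructor
  · intro h
    apply LinearMap.ext
    intro v
    rw [← rho_inv' ρ (S i) v, np_conj, h, LinearMap.zero_apply, map_zero, LinearMap.zero_apply]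
  · intro h
    apply LinearMap.ext
    intro v
    have h2 := np_conj ρ (S i) (K.toList.map A) v
    rw [h, LinearMap.zero_apply] at h2
    apply rho_inj ρ (S i)
    rw [← h2, LinearMap.zero_apply, map_zero]

/-- The products over all lists of the same length vanish together. -/
theorem np_all (L : Lk g A B C S) {l l' : List ℕ} (hl : l.Nodup) (hl' : l'.Nodup)
    (hg : ∀ j ∈ l, j < g) (hg' : ∀ j ∈ l', j < g) (hlen : l.length = l'.length)
    (h : np ρ (l.map A) = 0) : np ρ (l'.map A) = 0 := by
  have e : ∀ {l : List ℕ}, l.Nodup → l.toFinset.toList.Perm l := fun h =>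
    List.toFinset_toList h
  have key : ∀ {l : List ℕ}, l.Nodup → (∀ j ∈ l, j < g) →
      (np ρ (l.map A) = 0 ↔ np ρ ((Finset.Ico (g - l.length) g).toList.map A) = 0) := by
    intro l hl hg
    rw [← np_perm_A L (e hl)]
    exact move_iff (fun K => np ρ (K.toList.map A) = 0) (fun K i hi => np_swap L K hi) _
      l.toFinset (fun j hj => hg j (List.mem_toFinset.1 hj)) (List.toFinset_card_of_nodup hl)
      le_rfl
  rw [key hl' hg', ← hlen, ← key hl hg]
  exact h

/-- **Independence.** -/
theorem indep_bound [FiniteDimensional F V] (L : Lk g A B C S) (hL : Lan3 g A B C S)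
    (hout : ∀ i, g ≤ i → A i = 1) (hU : LemU ρ A B C S g) {k : ℕ} (hk : k + 2 ≤ g)
    (hEV : ∀ m, m + 1 = k → ∀ W, Ex ρ A B C S g m W → W = ⊥)
    (h0 : np ρ ((List.range (k + 1)).map A) = 0) (h1 : np ρ ((List.range k).map A) ≠ 0) :
    2 ^ k * g.choose k ≤ finrank F V := by
  classical
  -- the facts for every `K`
  have hlt : ∀ K ∈ Finset.powersetCard k (Finset.range g), ∀ j ∈ K, j < g := fun K hK j hj =>
    Finset.mem_range.1 ((Finset.mem_powersetCard.1 hK).1 hj)
  have hUk : ∀ K ∈ Finset.powersetCard k (Finset.range g),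
      Uk ρ A B C S g K (UJ ρ A K.toList) := by
    intro K hK
    have hc := (Finset.mem_powersetCard.1 hK).2
    have h2 := uk_UJ (ρ := ρ) L hL hout (J := K.toList) (Finset.nodup_toList K)
      (by rw [Finset.length_toList, hc]; exact hk) (by
        intro l hl hlK
        refine np_all L (l' := l :: K.toList) List.nodup_range
          (List.nodup_cons.2 ⟨hlK, Finset.nodup_toList K⟩) (fun j hj => ?_) (fun j hj => ?_) ?_ h0
        · have := List.mem_range.1 hj
          omega
        · rcases List.mem_cons.1 hj with rfl | hj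
          · exact hl
          · exact hlt K hK j (Finset.mem_toList.1 hj)
        · rw [List.length_range, List.length_cons, Finset.length_toList, hc])
    rwa [Finset.toList_toFinset] at h2
  have hne : ∀ K ∈ Finset.powersetCard k (Finset.range g), ∃ u ∈ UJ ρ A K.toList, u ≠ 0 := by
    intro K hK
    have hc := (Finset.mem_powersetCard.1 hK).2
    by_contra hcon
    push Not at hcon
    apply h1
    refine np_all L (l := K.toList) (Finset.nodup_toList K) List.nodup_range
      (fun j hj => hlt K hK j (Finset.mem_toList.1 hj)) (fun j hj => ?_) ?_ ?_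
    · have := List.mem_range.1 hj
      omega
    · rw [List.length_range, Finset.length_toList, hc]
    · apply LinearMap.ext
      intro v
      exact hcon _ ⟨v, rfl⟩
  have hz : ∀ K ∈ Finset.powersetCard k (Finset.range g), ∀ j ∈ K,
      UJ ρ A K.toList ⊓ mv ρ (A j * B j) (UJ ρ A K.toList) = ⊥ := by
    intro K hK j hj
    have hc := (Finset.mem_powersetCard.1 hK).2
    have hjg := hlt K hK j hj
    have hpos : 0 < K.card := Finset.card_pos.2 ⟨j, hj⟩
    have h2 := uk_cap L (hUk K hK) hj hjg
    refine uk_bot L hU (m := k - 1) (by omega) (hEV (k - 1) (by omega)) _ (K.erase j) ?_ ?_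
      le_rfl _ h2
    · intro i hi
      exact hlt K hK i (Finset.mem_of_mem_erase hi)
    · rw [Finset.card_erase_of_mem hj, hc]
  -- the index set
  let X : Finset (Finset ℕ × Finset ℕ) :=
    (Finset.powersetCard k (Finset.range g)).biUnion fun K => K.powerset.image fun c => (K, c)
  have hX : ∀ p : Finset ℕ × Finset ℕ, p ∈ X ↔
      p.1 ∈ Finset.powersetCard k (Finset.range g) ∧ p.2 ⊆ p.1 := by
    rintro ⟨K, c⟩
    simp only [X, Finset.mem_biUnion, Finset.mem_image, Finset.mem_powerset, Prod.mk.injEq]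
    constructor
    · rintro ⟨K', hK', c', hc', rfl, rfl⟩
      exact ⟨hK', hc'⟩
    · rintro ⟨h2, h3⟩
      exact ⟨K, h2, c, h3, rfl, rfl⟩
  have hcard : X.card = 2 ^ k * g.choose k := by
    rw [Finset.card_biUnion]
    · rw [Finset.sum_congr rfl (g := fun _ => 2 ^ k), Finset.sum_const,
        Finset.card_powersetCard, Finset.card_range, smul_eq_mul, mul_comm]
      intro K hK
      rw [Finset.card_image_of_injective _ (fun c c' h => (Prod.mk.inj h).2),
        Finset.card_powerset, (Finset.mem_powersetCard.1 hK).2]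
    · intro K _ K' _ hne
      change Disjoint (K.powerset.image fun c => (K, c)) (K'.powerset.image fun c => (K', c))
      rw [Finset.disjoint_left]
      rintro p hp hp'
      obtain ⟨c, _, rfl⟩ := Finset.mem_image.1 hp
      obtain ⟨c', _, h⟩ := Finset.mem_image.1 hp'
      exact hne (Prod.mk.inj h).1.symm
  choose! u0 hu0 hu0' using hne
  let u : X → V := fun p => ρ (wl A B p.1.2.toList) (u0 p.1.1)
  have hli : LinearIndependent F u := by
    refine linInd_ops (κ := {t : ℕ × Bool // t.1 < g}) u ?_ (fun t => PQ ρ A B t.1)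
      (fun p t => ev F p.1.1 p.1.2 t.1) ?_ ?_
    · rintro ⟨p, hp⟩ h2
      have h3 := (hX p).1 hp
      apply hu0' p.1 h3.1
      apply rho_inj ρ (wl A B p.2.toList)
      rw [map_zero]
      exact h2
    · rintro ⟨p, hp⟩ ⟨t, ht⟩
      have h3 := (hX p).1 hp
      exact PQ_act L (hUk p.1 h3.1) (hz p.1 h3.1) h3.2 (hu0 p.1 h3.1) t ht
    · rintro ⟨p, hp⟩ ⟨p', hp'⟩ hpp
      have h3 := (hX p).1 hp
      have h4 := (hX p').1 hp'
      obtain ⟨t, ht, ht'⟩ := ev_sep F h3.2 h4.2 (hlt p.1 h3.1) (hlt p'.1 h4.1) (by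
        rintro ⟨h5, h6⟩
        exact hpp (Subtype.ext (Prod.ext h5 h6)))
      exact ⟨⟨t, ht⟩, ht'⟩
  have h2 := hli.fintype_card_le_finrank
  rwa [Fintype.card_coe, hcard] at h2

/-- The arithmetic for `g = 2 t + 3`. -/
theorem arith (t : ℕ) (ht : 2 ≤ t) : 2 ^ (2 * t + 2) ≤ 2 ^ t * (2 * t + 3).choose t := by
  have key : ∀ t, 2 ≤ t → 2 ^ (t + 2) ≤ (2 * t + 3).choose t := by
    intro t ht
    induction t, ht using Nat.le_induction with
    | base => decide
    | succ t ht ih =>
      have e1 : (2 * (t + 1) + 3).choose (t + 1) =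
          (2 * t + 3 + 1).choose t + (2 * t + 3 + 1).choose (t + 1) := by
        rw [show 2 * (t + 1) + 3 = 2 * t + 3 + 1 + 1 by ring, Nat.choose_succ_succ]
      have e2 : (2 * t + 3).choose t ≤ (2 * t + 3 + 1).choose t :=
        Nat.choose_le_choose t (Nat.le_succ _)
      have e3 : (2 * t + 3 + 1).choose (t + 1) = (2 * t + 3).choose t +
          (2 * t + 3).choose (t + 1) := Nat.choose_succ_succ _ _
      rw [e1, e3, pow_succ, mul_two]
      omega
  calc 2 ^ (2 * t + 2) = 2 ^ t * 2 ^ (t + 2) := by rw [← pow_add]; congr 1; ring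
    _ ≤ _ := Nat.mul_le_mul_left _ (key t ht)

end Pool.MP_59b15d_al.H11D
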