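import Pool.Agent.H.MP_59b15d_al.lin.Dim6

/-!
# The chain of five

In dimension less than four the commutator subgroup of a group generated by a chain of five elements
acts trivially, and this commutator subgroup is perfect.
-/

set_option autoImplicit false

namespace Pool.MP_59b15d_al.H11D

universe u v w

open Module Pool.Agent.H.MP_59b15d_al.Lin
open scoped commutatorElement

/-- What commutes with a generating set commutes with everything. -/
theorem comm_gen {G M : Type*} [Group G] [Monoid M] {S : Set G} (hgen : Subgroup.closure S = ⊤)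
    (φ : G →* M) {c : M} (h : ∀ x ∈ S, φ x * c = c * φ x) (x : G) : φ x * c = c * φ x := by
  have hx : x ∈ Subgroup.closure S := by
    rw [hgen]
    exact Subgroup.mem_top x
  induction hx using Subgroup.closure_induction with
  | mem x hx => exact h x hx
  | one => rw [map_one, one_mul, mul_one]
  | mul x y _ _ hx hy => rw [map_mul, mul_assoc, hy, ← mul_assoc, hx, mul_assoc]
  | inv x _ hx =>
    have h1 : φ x⁻¹ * φ x = 1 := by rw [← map_mul, inv_mul_cancel, map_one]
    have h2 : φ x * φ x⁻¹ = 1 := by rw [← map_mul, mul_inv_cancel, map_one]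
    calc φ x⁻¹ * c = φ x⁻¹ * (c * (φ x * φ x⁻¹)) := by rw [h2, mul_one]
      _ = φ x⁻¹ * (c * φ x) * φ x⁻¹ := by simp only [mul_assoc]
      _ = φ x⁻¹ * (φ x * c) * φ x⁻¹ := by rw [hx]
      _ = φ x⁻¹ * φ x * c * φ x⁻¹ := by simp only [mul_assoc]
      _ = c * φ x⁻¹ := by rw [h1, one_mul]

/-- If generators have equal images, then the commutator subgroup is in the kernel. -/
theorem comm_triv_of_eq {G M ι : Type*} [Group G] [Monoid M] {s : ι → G}
    (hgen : Subgroup.closure (Set.range s) = ⊤) (φ : G →* M) (h : ∀ i j, φ (s i) = φ (s j)) :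
    ∀ x ∈ commutator G, φ x = 1 := by
  have h1 : ∀ x y, φ x * φ y = φ y * φ x := by
    intro x y
    refine comm_gen hgen φ ?_ x
    rintro _ ⟨i, rfl⟩
    refine (comm_gen hgen φ ?_ y).symm
    rintro _ ⟨j, rfl⟩
    rw [h i j]
  have h2 : commutator G ≤ φ.ker := by
    rw [commutator_def, Subgroup.commutator_le]
    intro x _ y _
    rw [MonoidHom.mem_ker, commutatorElement_def, map_mul, map_mul, map_mul, h1 x y]
    have e1 : φ x * φ x⁻¹ = 1 := by rw [← map_mul, mul_inv_cancel, map_one]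
    have e2 : φ y * φ y⁻¹ = 1 := by rw [← map_mul, mul_inv_cancel, map_one]
    rw [mul_assoc (φ y), e1, mul_one, e2]
  exact fun x hx => h2 hx

/-- **Dimension four.** In dimension less than four the commutator subgroup acts trivially. -/
theorem chain_dim4 {F : Type u} [Field F] [IsAlgClosed F] {G : Type w} [Group G]
    {s : Fin 5 → G} (hs : Gr c5 s) (hgen : Subgroup.closure (Set.range s) = ⊤)
    (W : Type v) [AddCommGroup W] [Module F W] [FiniteDimensional F W]
    (σ : G →* Module.End F W) (hW : finrank F W < 4) : ∀ x ∈ commutator G, σ x = 1 :=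
  comm_triv_of_eq hgen σ (chain_small hs hgen _ W σ rfl (by omega))

/-- **The commutator subgroup is perfect.** -/
theorem chain_perfect {G : Type*} [Group G] {s : Fin 5 → G} (hs : Gr c5 s)
    (hgen : Subgroup.closure (Set.range s) = ⊤) :
    commutator G ≤ ⁅commutator G, commutator G⁆ := by
  obtain ⟨N, hN⟩ : ∃ N, N = ⁅commutator G, commutator G⁆ := ⟨_, rfl⟩
  rw [← hN]
  have hn : N.Normal := by rw [hN]; infer_instance
  have hconj : ∀ i j, s i * (s j)⁻¹ ∈ commutator G := by
    have h1 : ∀ i, ∃ g, g * s 0 * g⁻¹ = s i := fun i => isConj_iff.1 (c5_conj hs i)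
    intro i j
    obtain ⟨g, hg⟩ := h1 i
    obtain ⟨k, hk⟩ := h1 j
    have h2 : s i * (s j)⁻¹ = ⁅g * k⁻¹, s j⁆ := by
      rw [commutatorElement_def, ← hg, ← hk]
      group
    rw [h2, commutator_def]
    exact Subgroup.commutator_mem_commutator (Subgroup.mem_top _) (Subgroup.mem_top _)
  let φ := QuotientGroup.mk' N
  have hker : ∀ x, φ x = 1 ↔ x ∈ N := fun x => QuotientGroup.eq_one_iff x
  have h3 : φ (s 0 * (s 3)⁻¹) * φ (s 1 * (s 3)⁻¹) = φ (s 1 * (s 3)⁻¹) * φ (s 0 * (s 3)⁻¹) := by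
    have h4 : φ ⁅s 0 * (s 3)⁻¹, s 1 * (s 3)⁻¹⁆ = 1 := by
      rw [hker, hN]
      exact Subgroup.commutator_mem_commutator (hconj 0 3) (hconj 1 3)
    rw [commutatorElement_def, map_mul, map_mul, map_mul, map_inv, map_inv] at h4
    rw [← mul_inv_eq_one, mul_inv_rev, ← h4]
    group
  have hφ := hs.map φ
  have c03 : φ (s 0) * (φ (s 3))⁻¹ = (φ (s 3))⁻¹ * φ (s 0) :=
    (Commute.inv_right (hφ.comm 0 3 (by decide) (by decide))).eq
  have c13 : φ (s 1) * (φ (s 3))⁻¹ = (φ (s 3))⁻¹ * φ (s 1) :=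
    (Commute.inv_right (hφ.comm 1 3 (by decide) (by decide))).eq
  have h5 : φ (s 0) * φ (s 1) = φ (s 1) * φ (s 0) := by
    simp only [map_mul, map_inv] at h3
    have e1 : φ (s 0) * (φ (s 3))⁻¹ * (φ (s 1) * (φ (s 3))⁻¹) =
        φ (s 0) * φ (s 1) * ((φ (s 3))⁻¹ * (φ (s 3))⁻¹) := by
      rw [mul_assoc, ← mul_assoc (φ (s 3))⁻¹, ← c13]
      simp only [mul_assoc]
    have e2 : φ (s 1) * (φ (s 3))⁻¹ * (φ (s 0) * (φ (s 3))⁻¹) =
        φ (s 1) * φ (s 0) * ((φ (s 3))⁻¹ * (φ (s 3))⁻¹) := by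
      rw [mul_assoc, ← mul_assoc (φ (s 3))⁻¹, ← c03]
      simp only [mul_assoc]
    rw [e1, e2] at h3
    exact mul_right_cancel h3
  have h6 : φ (s 0) = φ (s 1) :=
    eq_of_braid_comm (Group.isUnit _) (Group.isUnit _) (hφ.braid 0 1 (by decide)) h5
  have h7 : ∀ i j, φ (s i) = φ (s j) :=
    c5_all hφ (fun i => Group.isUnit _) (i := 0) (j := 1) (by decide) h6
  intro x hx
  rw [← hker]
  exact comm_triv_of_eq hgen φ h7 x hx

end Pool.MP_59b15d_al.H11D
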