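import Mathlib
import Pool.Agent.H.MP_59b15d_al.h11d.Indep2
import Pool.Agent.H.MP_59b15d_al.h47e.Lan

set_option autoImplicit false

/-!
# Independence, from the lantern relation for three consecutive handles
-/

namespace Pool.MP_59b15d_al.H11D

open Module Pool.MP_59b15d_al.H95E Pool.MP_59b15d_al.H93E Pool.MP_59b15d_al.H47E

theorem lan3_of {Γ : Type*} [Group Γ] {g : ℕ} {A B C S : ℕ → Γ} (L : Lk g A B C S)
    (R : Ln g A B C S) : Lan3 g A B C S := by
  intro x y z hxy hyz hz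
  obtain ⟨m, rfl⟩ : ∃ m, y = x + m + 1 := ⟨y - x - 1, by omega⟩
  obtain ⟨n, rfl⟩ : ∃ n, z = x + m + n + 2 := ⟨z - x - m - 2, by omega⟩
  have h1 := Lt_all L R x m n hz
  have e1 : x + m + 1 - x - 1 = m := by omega
  have e2 : x + m + n + 2 - (x + m + 1) - 1 = n := by omega
  have e3 : x + m + n + 2 - x - 1 = m + n + 1 := by omega
  rw [ar, ar, ar, e1, e2, e3]
  exact h1

/-- **Independence.** If `k + 2 ≤ g`, the products of `k + 1` operators `n_(A i)` vanish, those of
`k` do not, and nothing is exact for `k - 1`, then `2 ^ k * choose g k ≤ dim V`. -/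
theorem indep {F V Γ : Type*} [Field F] [AddCommGroup V] [Module F V] [Group Γ]
    [FiniteDimensional F V] {ρ : Γ →* Module.End F V} {g : ℕ} {A B C S : ℕ → Γ}
    (L : Lk g A B C S) (R : Ln g A B C S) (hout : ∀ i, g ≤ i → A i = 1)
    (hU : LemU ρ A B C S g) {k : ℕ} (hk : k + 2 ≤ g)
    (hEV : ∀ m, m + 1 = k → ∀ W, Ex ρ A B C S g m W → W = ⊥)
    (h0 : np ρ ((List.range (k + 1)).map A) = 0) (h1 : np ρ ((List.range k).map A) ≠ 0) :
    2 ^ k * g.choose k ≤ finrank F V :=
  indep_bound L (lan3_of L R) hout hU hk hEV h0 h1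

end Pool.MP_59b15d_al.H11D
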