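import Mathlib
import Pool.Agent.H.MP_59b15d_al.h11d.Dual
import Pool.Agent.H.MP_59b15d_al.lin.Red

set_option autoImplicit false

/-!
# The dual of a completely reducible representation
-/

namespace Pool.MP_59b15d_al.H11D

open Module Pool.MP_59b15d_al.H95E Pool.MP_59b15d_al.H93E Pool.Agent.H.MP_59b15d_al.Lin

variable {F V Γ : Type*} [Field F] [AddCommGroup V] [Module F V] [Group Γ]

/-- The dual of a completely reducible representation is completely reducible. -/
theorem du_compRed [FiniteDimensional F V] {ρ : Γ →* Module.End F V} (h : CompRed ρ) :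
    CompRed (du ρ) := by
  intro W hW
  have h0 : W.dualCoannihilator.dualAnnihilator = W :=
    Subspace.dualCoannihilator_dualAnnihilator_eq
  obtain ⟨U, hU, hc⟩ := h _ (inv_coann hW)
  refine ⟨U.dualAnnihilator, inv_ann hU, ?_⟩
  have h1 : W ⊓ U.dualAnnihilator = ⊥ := by
    conv_lhs => rw [← h0]
    rw [← Submodule.dualAnnihilator_sup_eq, hc.sup_eq_top, Submodule.dualAnnihilator_top]
  have h2 : W ⊔ U.dualAnnihilator = ⊤ := by
    conv_lhs => rw [← h0]
    rw [← Subspace.dualAnnihilator_inf_eq, hc.inf_eq_bot, Submodule.dualAnnihilator_bot]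
  exact IsCompl.of_eq h1 h2

end Pool.MP_59b15d_al.H11D
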